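import Pool.Agent.H462R3.WP.NotRed

/-!
# A finitely generated non-solvable group whose word problem is not ALOGTIME-hard

There is a finitely generated non-solvable group `G` such that the word problem of `G`, over any
finite alphabet of elements of `G`, is not ALOGTIME-hard, not even with respect to nonuniform AC⁰
Turing reductions: the language PARITY, which is in ALOGTIME, does not reduce to it.

The group acts on a tower of finite sets. Level `j` of the tower consists of the states of a
lamplighter over the field with three elements with `m j + 1` coordinates, and the generators
of level `j + 1` sit at five special states of level `j` that are farther than `3 ^ m j` from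
each other. The parameters `m j` grow so fast that for infinitely many `n` all words of length
polynomial in `n` are decided by polynomials over the field with three elements of degree
`n ^ o(1)`, up to a tiny error, and then the theorem of Razborov and Smolensky applies.

The definitions are in `Pool.Agent.H462R3.WP.Circ` (circuits and AC⁰ Turing reductions),
`Pool.Agent.H462R3.WP.Alog` (ALOGTIME) and `Pool.Agent.H462R3.WP.GateApx` (word problem).
-/

namespace Pool.Agent.Results.MP_458e77_lc.NotHard

open H462R3.WP

/-- There is a finitely generated non-solvable group whose word problem is not ALOGTIME-hard (over
every finite alphabet of elements); in fact PARITY, a language in ALOGTIME, does not reduce to it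
by nonuniform AC⁰ Turing reductions. -/
theorem result : ∃ (G : Type) (_ : Group G), Group.FG G ∧ ¬ Group.IsSolvable G ∧
    ∀ (A : Type) [Finite A] (γ : A → G), ¬ ALOGTIMEHard (WordProblem γ) ∧
      PARITY ∈ ALOGTIME ∧ ¬ AC0TuringReducible PARITY (WordProblem γ) := by
  refine ⟨Grp mm, inferInstance, grp_fg mm, grp_not_solvable mm two_le_mm, fun A hA γ => ?_⟩
  haveI := Fintype.ofFinite A
  exact ⟨fun h => parity_not_reducible γ (h _ parity_mem), parity_mem, parity_not_reducible γ⟩

end Pool.Agent.Results.MP_458e77_lc.NotHard
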